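import Pool.Agent.W399.WP.Stm

set_option autoImplicit false

namespace Pool.Agent.W177.WP399

open Pool.Agent.W399.WP

section

variable {A : Type}

theorem bw_nil : bw ([] : List (Blk A)) = [] := rfl

theorem bw_cons (B : Blk A) (Bs : List (Blk A)) : bw (B :: Bs) = bw Bs ++ B.1 := by
  simp [bw]

theorem bw_append (X Y : List (Blk A)) : bw (X ++ Y) = bw Y ++ bw X := by
  simp [bw]

theorem dec_low (Low : List (Blk A)) (a b₁ : List A) (h : bw Low = a ++ b₁) (hb : b₁ ≠ []) :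
    ∃ (Low₁ : List (Blk A)) (B : Blk A) (Low₂ : List (Blk A)) (l' b' : List A),
      Low = Low₁ ++ B :: Low₂ ∧ B.1 = l' ++ b' ∧ b' ≠ [] ∧ b₁ = b' ++ bw Low₁ := by
  induction Low generalizing a b₁ with
  | nil =>
    rw [bw_nil] at h
    exact absurd (List.append_eq_nil_iff.mp h.symm).2 hb
  | cons B L ih =>
    rw [bw_cons] at h
    rcases List.append_eq_append_iff.mp h with ⟨s, h1, h2⟩ | ⟨s, h1, h2⟩
    · -- a = bw L ++ s, B.1 = s ++ b₁
      exact ⟨[], B, L, s, b₁, rfl, h2, hb, by simp [bw_nil]⟩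
    · -- bw L = a ++ s, b₁ = s ++ B.1
      by_cases hs : s = []
      · subst hs
        rw [List.nil_append] at h2
        exact ⟨[], B, L, [], b₁, rfl, by simp [h2], hb, by simp [bw_nil]⟩
      · obtain ⟨L₁, B', L₂, l', b', e1, e2, e3, e4⟩ := ih a s h1 hs
        refine ⟨B :: L₁, B', L₂, l', b', by rw [e1]; rfl, e2, e3, ?_⟩
        rw [h2, e4, bw_cons, List.append_assoc]

theorem dec_top (Top : List (Blk A)) (b₂ c : List A) (h : bw Top = b₂ ++ c) (hb : b₂ ≠ []) :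
    ∃ (Top₁ : List (Blk A)) (B : Blk A) (Top₂ : List (Blk A)) (z z' : List A),
      Top = Top₁ ++ B :: Top₂ ∧ B.1 = z ++ z' ∧ b₂ = bw Top₂ ++ z := by
  induction Top generalizing b₂ c with
  | nil =>
    rw [bw_nil] at h
    exact absurd (List.append_eq_nil_iff.mp h.symm).1 hb
  | cons B T ih =>
    rw [bw_cons] at h
    rcases List.append_eq_append_iff.mp h with ⟨s, h1, h2⟩ | ⟨s, h1, h2⟩
    · -- b₂ = bw T ++ s, B.1 = s ++ c
      exact ⟨[], B, T, s, c, rfl, h2, h1⟩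
    · -- bw T = b₂ ++ s
      obtain ⟨T₁, B', T₂, z, z', e1, e2, e3⟩ := ih b₂ s h1 hb
      exact ⟨B :: T₁, B', T₂, z, z', by rw [e1]; rfl, e2, e3⟩

variable {M : Type} [CancelMonoid M] {φ : A → M}

theorem Good_drop {ρ : ℕ} {X Y : List (Blk A)} (h : Good φ ρ (X ++ Y)) : Good φ ρ Y := by
  induction X with
  | nil => exact h
  | cons B X ih => exact ih h.1

end

theorem kp : S_KP := by
  intro M _ A _ φ hs D
  have hfinX := D.finX
  -- completions
  have hne : ∀ y : D.X, ∃ p : List A × List A, p ∈ D.C y := fun y => D.ne y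
  choose cd hcd using hne
  -- bound on `E`
  obtain ⟨N₀, hN₀⟩ : ∃ N₀ : ℕ, ∀ e ∈ D.E, nrm φ e ≤ N₀ := by
    obtain ⟨N, hN⟩ := (D.finE.image (nrm φ)).bddAbove
    exact ⟨N, fun e he => hN (Set.mem_image_of_mem _ he)⟩
  have hball := finite_ball φ hs
  have hF₁ : {m : M | ∃ g ∈ {m : M | nrm φ m ≤ N₀}, m * g ∈ D.E}.Finite :=
    finite_rdiv D.finE (hball N₀)
  set F₁ := {m : M | ∃ g ∈ {m : M | nrm φ m ≤ N₀}, m * g ∈ D.E} with hF₁d
  have hR : (Set.range fun y : D.X => pr φ (cd y).1).Finite := Set.finite_range _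
  have hG : (Set.image2 (fun m (y : D.X) => m * pr φ (cd y).2) F₁ Set.univ).Finite :=
    Set.Finite.image2 _ hF₁ Set.finite_univ
  have hF₂ : {m : M | ∃ g ∈ (Set.range fun y : D.X => pr φ (cd y).1), m * g ∈
      Set.image2 (fun m (y : D.X) => m * pr φ (cd y).2) F₁ Set.univ}.Finite :=
    finite_rdiv hG hR
  obtain ⟨ρ₂, hρ₂⟩ : ∃ ρ₂ : ℕ, ∀ m ∈ {m : M | ∃ g ∈ (Set.range fun y : D.X => pr φ (cd y).1),
      m * g ∈ Set.image2 (fun m (y : D.X) => m * pr φ (cd y).2) F₁ Set.univ}, nrm φ m ≤ ρ₂ := by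
    obtain ⟨N, hN⟩ := (hF₂.image (nrm φ)).bddAbove
    exact ⟨N, fun e he => hN (Set.mem_image_of_mem _ he)⟩
  obtain ⟨ρ₃, hρ₃⟩ : ∃ ρ₃ : ℕ, ∀ b m : M, nrm φ b ≤ ρ₂ → nrm φ (b * m) ≤ ρ₂ → nrm φ m ≤ ρ₃ := by
    have hfin := finite_ldiv (hball ρ₂) (hball ρ₂)
    obtain ⟨N, hN⟩ := (hfin.image (nrm φ)).bddAbove
    exact ⟨N, fun b m h1 h2 => hN (Set.mem_image_of_mem _ ⟨b, h1, h2⟩)⟩
  refine ⟨ρ₂ + ρ₃, max ρ₂ ρ₃, ?_⟩
  intro ρ hρ Top Low a b₁ b₂ c hgood hlow htop hb₁ hb₂ hE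
  have hρ2 : ρ₂ ≤ ρ := le_trans (le_max_left _ _) hρ
  have hρ3 : ρ₃ ≤ ρ := le_trans (le_max_right _ _) hρ
  obtain ⟨Low₁, Bj, Low₂, l', b', eL, eBj, hb', eb₁⟩ := dec_low Low a b₁ hlow hb₁
  obtain ⟨Top₁, Bk, Top₂, z, z', eT, eBk, eb₂⟩ := dec_top Top b₂ c htop hb₂
  set Mid := Top₂ ++ Low₁ with hMid
  have hstack : Top ++ Low = Top₁ ++ (Bk :: (Mid ++ Bj :: Low₂)) := by
    rw [eL, eT, hMid]
    simp [List.append_assoc]
  rw [hstack] at hgood
  have hgk := Good_drop hgood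
  obtain ⟨hgM, hgeo, hlen, hval, hne2, hcl⟩ := hgk
  have hgj : Good φ ρ (Bj :: Low₂) := Good_drop hgM
  obtain ⟨-, hgeoj, hlenj, -, -, -⟩ := hgj
  have hbwMid : bw Mid = bw Low₁ ++ bw Top₂ := by rw [hMid, bw_append]
  have hbwlen : (bw Low₁).length ≤ (bw Mid).length := by
    rw [hbwMid, List.length_append]; omega
  have hb₁len : b₁.length ≤ b'.length + (bw Mid).length := by
    rw [eb₁, List.length_append]; omega
  have hEm : pr φ b' * pr φ (bw Mid) * pr φ z ∈ D.E := by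
    have : pr φ (b₁ ++ b₂) = pr φ b' * pr φ (bw Mid) * pr φ z := by
      rw [eb₁, eb₂, hbwMid]
      simp only [pr_append, mul_assoc]
    rw [← this]
    exact hE
  have hl'b' : l'.length + b'.length ≤ ρ := by
    have := hlenj
    rw [eBj, List.length_append] at this
    exact this
  have hnrm_le : ∀ l : List A, nrm φ (pr φ l) ≤ l.length := nrm_le φ
  -- the piece of the path
  have hpk : pr φ Bk.2 = pr φ (z ++ z') := by rw [← hval, eBk]
  obtain ⟨y, a₁, a₂, g, d₁, d₂, c', hu, hv1, hv2, hstep, hcomp, hd⟩ := D.vside Bk.2 z z' hpk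
  have hd₁ : nrm φ (pr φ d₁) ≤ N₀ := by
    rcases hd with ⟨h1, -⟩ | h1
    · rw [h1]
      have := hnrm_le ([] : List A)
      simp only [List.length_nil] at this
      omega
    · have hfac : Geo φ (d₁ ++ d₂) := by
        refine Geo.factor φ hgeo (s := g) (t := d₁ ++ d₂) (u := c') ?_
        rw [eBk, hv1, hv2]
        simp [List.append_assoc]
      have h2 := hN₀ _ h1
      have h3 : (d₁ ++ d₂).length = nrm φ (pr φ (d₁ ++ d₂)) := hfac
      have h4 := hnrm_le d₁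
      rw [List.length_append] at h3
      omega
  set m₁ := pr φ b' * pr φ (bw Mid) * pr φ g with hm₁
  have hm₁F : m₁ ∈ F₁ := by
    refine ⟨pr φ d₁, hd₁, ?_⟩
    have : m₁ * pr φ d₁ = pr φ b' * pr φ (bw Mid) * pr φ z := by
      rw [hm₁, hv1]
      simp only [pr_append, mul_assoc]
    rw [this]
    exact hEm
  set m₂ := pr φ b' * pr φ (bw Mid) * pr φ a₁ with hm₂
  have hac : pr φ a₁ * pr φ (cd y).1 = pr φ g * pr φ (cd y).2 := by
    have h1 := hstep (cd y).1 (cd y).2 (by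
      have := hcd y
      exact this)
    have h2 := (D.hC _ _).mp h1
    simpa only [pr_append] using h2
  have hm₂n : nrm φ m₂ ≤ ρ₂ := by
    apply hρ₂
    refine ⟨pr φ (cd y).1, ⟨y, rfl⟩, ?_⟩
    refine ⟨m₁, hm₁F, y, Set.mem_univ _, ?_⟩
    change m₁ * pr φ (cd y).2 = m₂ * pr φ (cd y).1
    rw [hm₁, hm₂, mul_assoc (pr φ b' * pr φ (bw Mid)), mul_assoc (pr φ b' * pr φ (bw Mid)), hac]
  -- the two clauses
  have key1 : ∀ (Bs : List (Blk A)) (w : List A), (∀ (r : ℕ) (l : List A), 1 ≤ r →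
      r ≤ (Bs ++ Bj :: Low₂).length → l ≠ [] → l <+: w →
        ρ < nrm φ (pr φ (bw ((Bs ++ Bj :: Low₂).take r)) * pr φ l)) →
      ∀ l : List A, l ≠ [] → l <+: w → pr φ b' * pr φ (bw Bs) * pr φ l = m₂ →
        b'.length < ρ₂ ∧ (Bs ≠ [] → False) := by
    intro Bs w hc l hl hlw hm
    have e1 : (Bs ++ Bj :: Low₂).take (Bs.length + 1) = Bs ++ [Bj] := by
      rw [List.take_append]
      simp
    have h1 := hc (Bs.length + 1) l (by omega) (by simp) hl hlw
    rw [e1, bw_append, bw_cons, bw_nil, List.nil_append, eBj] at h1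
    have e2 : pr φ (l' ++ b' ++ bw Bs) * pr φ l = pr φ l' * m₂ := by
      rw [← hm]
      simp only [pr_append, mul_assoc]
    rw [e2] at h1
    have h2 := nrm_mul_le φ hs (pr φ l') m₂
    have h3 := hnrm_le l'
    have h4 : b'.length < ρ₂ := by omega
    refine ⟨h4, fun hBs => ?_⟩
    have h5 := hc Bs.length l (List.length_pos_iff.mpr hBs) (by simp) hl hlw
    rw [List.take_left'  rfl] at h5
    have h6 := hρ₃ (pr φ b') (pr φ (bw Bs) * pr φ l) ((hnrm_le b').trans h4.le) (by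
      rw [← mul_assoc, hm]
      exact hm₂n)
    omega
  by_cases ha₁ : a₁ = []
  · -- `a₁` is empty
    subst ha₁
    rw [pr_nil, mul_one] at hm₂
    rcases hMc : Mid with _ | ⟨B₁, Mid'⟩
    · rw [hMc, bw_nil] at hb₁len
      rw [hMc, bw_nil, pr_nil, mul_one] at hm₂
      have hfac : Geo φ b' := by
        refine Geo.factor φ hgeoj (s := l') (t := b') (u := []) ?_
        rw [eBj]
        simp
      have h3 : b'.length = nrm φ (pr φ b') := hfac
      rw [List.length_nil, add_zero] at hb₁len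
      rw [← hm₂] at h3
      omega
    · rw [hMc] at hgM
      obtain ⟨-, hgeo1, hlen1, hval1, hne1, hcl1⟩ := hgM
      have hfull : pr φ b' * pr φ (bw Mid') * pr φ B₁.2 = m₂ := by
        rw [hm₂, hMc, bw_cons, pr_append, ← hval1, mul_assoc]
      have h1 := key1 Mid' B₁.2 hcl1 B₁.2 hne1 (List.prefix_refl _) hfull
      have hM' : Mid' = [] := by
        by_contra hcon
        exact h1.2 hcon
      have h4 : nrm φ (pr φ B₁.1) ≤ ρ₃ := by
        refine hρ₃ (pr φ b') (pr φ B₁.1) ((hnrm_le b').trans h1.1.le) ?_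
        have : pr φ b' * pr φ B₁.1 = m₂ := by
          rw [hm₂, hMc, hM', bw_cons, bw_nil, List.nil_append]
        rw [this]
        exact hm₂n
      have h5 : B₁.1.length = nrm φ (pr φ B₁.1) := hgeo1
      rw [hMc, hM', bw_cons, bw_nil, List.nil_append] at hb₁len
      omega
  · have hpre : a₁ <+: Bk.2 := ⟨a₂, hu.symm⟩
    have h1 := key1 Mid Bk.2 hcl a₁ ha₁ hpre rfl
    have hM : Mid = [] := by
      by_contra hcon
      exact h1.2 hcon
    rw [hM, bw_nil, List.length_nil, add_zero] at hb₁len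
    omega

end Pool.Agent.W177.WP399
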